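import Pool.Agent.Y462.SS.St

/-!
# SS-LF, POW, UNION: locally finite groups, powers of a finite group, increasing unions
-/

set_option autoImplicit false

namespace Pool.Agent.Y430.SS

open Pool.Agent.Y462.SS

/-- finite groups are in the class -/
theorem of_finite {C : ∀ (G : Type) [Group G], Prop} (hC : Closed C) (G : Type) [Group G]
    (hG : Finite G) : C G := by
  have : (⊥ : Subgroup G).FiniteIndex := inferInstance
  refine hC.finiteIndex G ⊥ this ?_
  refine hC.of_injective _ _ (1 : (⊥ : Subgroup G) →* Multiplicative ℤ) ?_ hC.int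
  intro x y _
  exact Subsingleton.elim x y

/-- colimit of a directed family of subgroups -/
theorem of_directed {C : ∀ (G : Type) [Group G], Prop} (hC : Closed C) (G : Type) [Group G]
    (I : Type) [Preorder I] [Nonempty I] (hI : ∀ i j : I, ∃ k, i ≤ k ∧ j ≤ k)
    (K : I → Subgroup G) (hK : Monotone K) (hg : ∀ g, ∃ i, g ∈ K i) (hc : ∀ i, C (K i)) :
    C G := by
  refine hC.colim I hI (fun i => K i) (fun i j h => Subgroup.inclusion (hK h)) G
    (fun i => (K i).subtype) ?_ ?_ ?_ ?_ ?_ hc
  · intro i h x
    rfl
  · intro i j k h h' x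
    rfl
  · intro i j h x
    rfl
  · intro y
    obtain ⟨i, hi⟩ := hg y
    exact ⟨i, ⟨y, hi⟩, rfl⟩
  · intro i x hx
    refine ⟨i, le_rfl, ?_⟩
    have : x = 1 := Subtype.ext hx
    rw [this, map_one]

/-- locally finite groups -/
theorem t_lf : S_LF := by
  intro C hC G _ hG
  refine of_directed hC G (Finset G) (fun i j => ?_)
    (fun s => Subgroup.closure (s : Set G)) (fun s t h => Subgroup.closure_mono (by exact_mod_cast h))
    (fun g => ⟨{g}, Subgroup.subset_closure (by simp)⟩) (fun s => of_finite hC _ (hG s))
  classical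
  exact ⟨i ∪ j, Finset.subset_union_left, Finset.subset_union_right⟩

/-- increasing unions -/
theorem t_union : S_UNION := by
  intro C hC G _ K hK hg hc
  exact of_directed hC G ℕ (fun i j => ⟨max i j, le_max_left _ _, le_max_right _ _⟩) K hK hg hc

/-- powers of a finite group are locally finite -/
theorem t_pow : S_POW := by
  intro F ι _ hF s
  classical
  -- the map to the finite set of the values
  obtain ⟨φ, hφ⟩ : ∃ φ : ι → (s → F), φ = fun i f => f.1 i := ⟨_, rfl⟩
  have hfin : Finite (Set.range φ) := inferInstance
  -- the subgroup of the functions that factor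
  obtain ⟨H, hH⟩ : ∃ H : Subgroup (ι → F), ∀ h, h ∈ H ↔ ∀ i j, φ i = φ j → h i = h j := by
    refine ⟨{ carrier := {h | ∀ i j, φ i = φ j → h i = h j}
              mul_mem' := ?_
              one_mem' := ?_
              inv_mem' := ?_ }, fun h => Iff.rfl⟩
    · intro a b ha hb i j hij
      simp only [Pi.mul_apply, ha i j hij, hb i j hij]
    · intro i j _
      rfl
    · intro a ha i j hij
      simp only [Pi.inv_apply, ha i j hij]
  have hs : Subgroup.closure (s : Set (ι → F)) ≤ H := by
    rw [Subgroup.closure_le]
    intro f hf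
    rw [SetLike.mem_coe, hH]
    intro i j hij
    have := congrFun hij ⟨f, hf⟩
    rw [hφ] at this
    exact this
  have hinj : Function.Injective (fun (h : Subgroup.closure (s : Set (ι → F)))
      (r : Set.range φ) => h.1 (Classical.choose r.2)) := by
    intro a b hab
    refine Subtype.ext (funext fun i => ?_)
    have h1 := congrFun hab ⟨φ i, i, rfl⟩
    have h2 := Classical.choose_spec (⟨φ i, i, rfl⟩ : Set.range φ).2
    simp only at h1
    rw [(hH a.1).1 (hs a.2) _ _ h2, (hH b.1).1 (hs b.2) _ _ h2] at h1
    exact h1
  exact Finite.of_injective _ hinj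

end Pool.Agent.Y430.SS
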